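import Mathlib

set_option autoImplicit false

/-!
# Hall type lemmas for project SN (Griggs steps with prescribed links)
-/

namespace Pool.Agent.Helper29.SN

open Finset

/-- Filter with the classical decidability instance. -/
noncomputable def cf {α : Type*} (s : Finset α) (P : α → Prop) : Finset α :=
  @Finset.filter α P (Classical.decPred P) s

@[simp] theorem mem_cf {α : Type*} {s : Finset α} {P : α → Prop} {a : α} :
    a ∈ cf s P ↔ a ∈ s ∧ P a := by
  unfold cf
  exact @Finset.mem_filter α P (Classical.decPred P) s a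

section Abstract

variable {αF βF αG βG : Type*}

/-- The bipartite graph with jokers. -/
def JE (rF : αF → βF → Prop) (rG : αG → βG → Prop) (Y : Finset βF) (q : βF → βG) (c : ℕ) :
    αF ⊕ (βG ⊕ Fin c) → βF ⊕ (αG ⊕ Fin c) → Prop
  | Sum.inl a, Sum.inl b => rF a b
  | Sum.inl _, Sum.inr _ => False
  | Sum.inr (Sum.inl d), Sum.inl b => b ∈ Y ∧ q b = d
  | Sum.inr (Sum.inl d), Sum.inr (Sum.inl a) => rG a d
  | Sum.inr (Sum.inl d), Sum.inr (Sum.inr _) => ∀ b ∈ Y, q b ≠ d
  | Sum.inr (Sum.inr _), Sum.inl b => b ∉ Y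
  | Sum.inr (Sum.inr _), Sum.inr (Sum.inl _) => False
  | Sum.inr (Sum.inr _), Sum.inr (Sum.inr _) => True

variable [Fintype αF] [Fintype βF] [Fintype αG] [Fintype βG]

open Classical in
/-- Matching with jokers: at most `c` links outside the prescribed ones are used. -/
theorem joker (rF : αF → βF → Prop) (rG : αG → βG → Prop)
    (hα : Fintype.card αF = Fintype.card αG) (hβ : Fintype.card βF = Fintype.card βG)
    (Y : Finset βF) (q : βF → βG) (hq : Set.InjOn q Y) (c : ℕ)
    (H1 : ∀ (A : Finset αF) (D : Finset βG), A.card + D.card ≤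
      (cf univ fun b => (∃ a ∈ A, rF a b) ∨ b ∉ Y ∨ q b ∈ D).card +
        (cf univ fun a => ∃ d ∈ D, rG a d).card)
    (H2 : ∀ (A : Finset αF) (D : Finset βG), (∀ d ∈ D, ∃ b ∈ Y, q b = d) → A.card + D.card ≤
      (cf univ fun b => (∃ a ∈ A, rF a b) ∨ (b ∈ Y ∧ q b ∈ D)).card +
        (cf univ fun a => ∃ d ∈ D, rG a d).card)
    (H3 : ∀ (A : Finset αF) (D : Finset βG), A.card + D.card ≤
      (cf univ fun b => (∃ a ∈ A, rF a b) ∨ (b ∈ Y ∧ q b ∈ D)).card +
        (cf univ fun a => ∃ d ∈ D, rG a d).card + c) :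
    ∃ (F : αF → βF) (G : αG → βG), Function.Injective F ∧ Function.Injective G ∧
      (∀ a, rF a (F a)) ∧ (∀ a, rG a (G a)) ∧
      (∀ x ∈ Y, (x ∈ Set.range F ↔ q x ∈ Set.range G)) ∧
      (cf univ fun d => (∀ b ∈ Y, q b ≠ d) ∧ d ∉ Set.range G).card ≤ c := by
  have hall : ∃ f : αF ⊕ (βG ⊕ Fin c) → βF ⊕ (αG ⊕ Fin c), Function.Injective f ∧
      ∀ x, JE rF rG Y q c x (f x) := by
    rw [← Fintype.all_card_le_filter_rel_iff_exists_injective]
    intro s
    set N : Finset (βF ⊕ (αG ⊕ Fin c)) := univ.filter fun b => ∃ a ∈ s, JE rF rG Y q c a b with hN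
    set A := s.toLeft with hA
    set D := s.toRight.toLeft with hD
    set C := s.toRight.toRight with hC
    have hs : s.card = A.card + (D.card + C.card) := by
      rw [← card_toLeft_add_card_toRight (u := s), ← card_toLeft_add_card_toRight (u := s.toRight)]
    have hNc : N.card = N.toLeft.card + (N.toRight.toLeft.card + N.toRight.toRight.card) := by
      rw [← card_toLeft_add_card_toRight (u := N), ← card_toLeft_add_card_toRight (u := N.toRight)]
    have h2 : N.toRight.toLeft = cf univ fun a => ∃ d ∈ D, rG a d := by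
      ext a
      simp only [mem_toLeft, mem_toRight, hN, mem_filter, mem_univ, true_and, hD, mem_cf]
      constructor
      · rintro ⟨x, hx, hE⟩
        rcases x with x | x | x
        · exact hE.elim
        · exact ⟨x, hx, hE⟩
        · exact hE.elim
      · rintro ⟨d, hd, hr⟩
        exact ⟨Sum.inr (Sum.inl d), hd, hr⟩
    rw [hs, hNc, h2]
    rcases C.eq_empty_or_nonempty with hCe | hCn
    · -- no joker on the left
      have h1 : N.toLeft = cf univ fun b => (∃ a ∈ A, rF a b) ∨ (b ∈ Y ∧ q b ∈ D) := by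
        ext b
        simp only [mem_toLeft, hN, mem_filter, mem_univ, true_and, hA, hD, mem_toRight, mem_cf]
        constructor
        · rintro ⟨x, hx, hE⟩
          rcases x with x | x | x
          · exact Or.inl ⟨x, hx, hE⟩
          · refine Or.inr ⟨hE.1, ?_⟩
            rw [hE.2]
            exact hx
          · exfalso
            have hx' : x ∈ C := by simpa [hC] using hx
            rw [hCe] at hx'
            exact absurd hx' (notMem_empty _)
        · rintro (⟨a, ha, hr⟩ | ⟨hb, hbD⟩)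
          · exact ⟨Sum.inl a, ha, hr⟩
          · exact ⟨Sum.inr (Sum.inl (q b)), hbD, hb, rfl⟩
      rw [h1, hCe, card_empty, add_zero]
      by_cases hDY : ∀ d ∈ D, ∃ b ∈ Y, q b = d
      · have := H2 A D hDY
        omega
      · have h3 : N.toRight.toRight = univ := by
          push Not at hDY
          obtain ⟨d, hd, hdY⟩ := hDY
          ext j
          simp only [mem_toRight, hN, mem_filter, mem_univ, true_and, iff_true]
          refine ⟨Sum.inr (Sum.inl d), by simpa [hD] using hd, ?_⟩
          exact hdY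
        rw [h3, card_univ, Fintype.card_fin]
        have := H3 A D
        omega
    · obtain ⟨j0, hj0⟩ := hCn
      have hj0' : Sum.inr (Sum.inr j0) ∈ s := by simpa [hC] using hj0
      have h1 : N.toLeft = cf univ fun b => (∃ a ∈ A, rF a b) ∨ b ∉ Y ∨ q b ∈ D := by
        ext b
        simp only [mem_toLeft, hN, mem_filter, mem_univ, true_and, hA, hD, mem_toRight, mem_cf]
        constructor
        · rintro ⟨x, hx, hE⟩
          rcases x with x | x | x
          · exact Or.inl ⟨x, hx, hE⟩
          · refine Or.inr (Or.inr ?_)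
            rw [hE.2]
            exact hx
          · exact Or.inr (Or.inl hE)
        · rintro (⟨a, ha, hr⟩ | hb | hbD)
          · exact ⟨Sum.inl a, ha, hr⟩
          · exact ⟨Sum.inr (Sum.inr j0), hj0', hb⟩
          · by_cases hb : b ∈ Y
            · exact ⟨Sum.inr (Sum.inl (q b)), hbD, hb, rfl⟩
            · exact ⟨Sum.inr (Sum.inr j0), hj0', hb⟩
      have h3 : N.toRight.toRight = univ := by
        ext j
        simp only [mem_toRight, hN, mem_filter, mem_univ, true_and, iff_true]
        exact ⟨Sum.inr (Sum.inr j0), hj0', trivial⟩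
      have hCc : C.card ≤ c := by
        have := card_le_univ C
        rwa [Fintype.card_fin] at this
      rw [h1, h3, card_univ, Fintype.card_fin]
      have := H1 A D
      omega
  obtain ⟨f, hf, hfE⟩ := hall
  have hbij : Function.Bijective f := by
    rw [Fintype.bijective_iff_injective_and_card]
    refine ⟨hf, ?_⟩
    simp only [Fintype.card_sum, Fintype.card_fin]
    omega
  -- extraction of F
  have hF : ∀ a : αF, ∃ b : βF, f (Sum.inl a) = Sum.inl b ∧ rF a b := by
    intro a
    have h := hfE (Sum.inl a)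
    rcases hfa : f (Sum.inl a) with b | x
    · rw [hfa] at h
      exact ⟨b, rfl, h⟩
    · rw [hfa] at h
      exact h.elim
  have hG : ∀ a : αG, ∃ d : βG, f (Sum.inr (Sum.inl d)) = Sum.inr (Sum.inl a) ∧ rG a d := by
    intro a
    obtain ⟨x, hx⟩ := hbij.2 (Sum.inr (Sum.inl a))
    have h := hfE x
    rw [hx] at h
    rcases x with x | x | x
    · exact h.elim
    · exact ⟨x, hx, h⟩
    · exact h.elim
  choose F hF1 hF2 using hF
  choose G hG1 hG2 using hG
  refine ⟨F, G, ?_, ?_, hF2, hG2, ?_, ?_⟩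
  · intro a a' h
    have : f (Sum.inl a) = f (Sum.inl a') := by rw [hF1, hF1, h]
    exact Sum.inl_injective (hf this)
  · intro a a' h
    have h1 := hG1 a
    have h2 := hG1 a'
    rw [h] at h1
    rw [h1] at h2
    exact Sum.inl_injective (Sum.inr_injective h2)
  · intro x hx
    constructor
    · rintro ⟨a, rfl⟩
      -- look at where the node `q (F a)` goes
      rcases hy : f (Sum.inr (Sum.inl (q (F a)))) with b | b | b
      · exfalso
        have h := hfE (Sum.inr (Sum.inl (q (F a))))
        rw [hy] at h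
        have hb : b = F a := hq h.1 hx h.2
        have : f (Sum.inr (Sum.inl (q (F a)))) = f (Sum.inl a) := by rw [hy, hF1, hb]
        exact absurd (hf this) (by simp)
      · refine ⟨b, ?_⟩
        have h1 := hG1 b
        have h2 := hf (h1.trans hy.symm)
        exact Sum.inl_injective (Sum.inr_injective h2)
      · exfalso
        have h := hfE (Sum.inr (Sum.inl (q (F a))))
        rw [hy] at h
        exact h _ hx rfl
    · rintro ⟨a, ha⟩
      obtain ⟨z, hz⟩ := hbij.2 (Sum.inl x)
      have h := hfE z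
      rw [hz] at h
      rcases z with z | z | z
      · refine ⟨z, ?_⟩
        rw [hF1] at hz
        exact Sum.inl_injective hz
      · exfalso
        have h1 := hG1 a
        rw [ha, h.2, hz] at h1
        exact absurd h1 (by simp)
      · exact absurd hx h
  · -- the unused elements outside `q '' Y` inject into the jokers
    have hinj : ∀ d ∈ (cf univ fun d => (∀ b ∈ Y, q b ≠ d) ∧ d ∉ Set.range G),
        ∃ j : Fin c, f (Sum.inr (Sum.inl d)) = Sum.inr (Sum.inr j) := by
      intro d hd
      rw [mem_cf] at hd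
      have h := hfE (Sum.inr (Sum.inl d))
      rcases hy : f (Sum.inr (Sum.inl d)) with b | b | b
      · rw [hy] at h
        exact absurd h.2 (hd.2.1 b h.1)
      · exfalso
        have h1 := hf ((hG1 b).trans hy.symm)
        exact hd.2.2 ⟨b, Sum.inl_injective (Sum.inr_injective h1)⟩
      · exact ⟨b, rfl⟩
    have hsub : (cf univ fun d => (∀ b ∈ Y, q b ≠ d) ∧ d ∉ Set.range G).image
        (fun d => f (Sum.inr (Sum.inl d))) ⊆
        (univ : Finset (Fin c)).image (fun j => (Sum.inr (Sum.inr j) : βF ⊕ (αG ⊕ Fin c))) := by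
      intro y hy
      obtain ⟨d, hd, rfl⟩ := mem_image.mp hy
      obtain ⟨j, hj⟩ := hinj d hd
      exact mem_image.mpr ⟨j, mem_univ _, hj.symm⟩
    have hc := card_le_card hsub
    rw [card_image_of_injective _ (fun d d' h => Sum.inl_injective (Sum.inr_injective (hf h))),
      card_image_of_injective _ (fun d d' h => Sum.inr_injective (Sum.inr_injective h)),
      card_univ, Fintype.card_fin] at hc
    exact hc

end Abstract

section Levels

variable {γ : Type*}

/-- Upper shadow of `A` in the level `W`. -/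
noncomputable def upS (W : Finset γ) (r : γ → γ → Prop) (A : Finset γ) : Finset γ :=
  cf W fun b => ∃ a ∈ A, r a b

/-- Lower shadow of `D` in the level `V`. -/
noncomputable def loS (V : Finset γ) (r : γ → γ → Prop) (D : Finset γ) : Finset γ :=
  cf V fun a => ∃ d ∈ D, r a d

theorem mem_upS {W : Finset γ} {r : γ → γ → Prop} {A : Finset γ} {b : γ} :
    b ∈ upS W r A ↔ b ∈ W ∧ ∃ a ∈ A, r a b := mem_cf

theorem mem_loS {V : Finset γ} {r : γ → γ → Prop} {D : Finset γ} {a : γ} :
    a ∈ loS V r D ↔ a ∈ V ∧ ∃ d ∈ D, r a d := mem_cf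

private lemma card_sub (W : Finset γ) (P : γ → Prop) :
    (cf univ fun b : {b // b ∈ W} => P b.1).card = (cf W P).card := by
  rw [← card_map (Function.Embedding.subtype fun b => b ∈ W)]
  congr 1
  ext b
  simp only [mem_map, mem_cf, mem_univ, true_and, Function.Embedding.coe_subtype,
    Subtype.exists, exists_and_right, exists_eq_right]
  constructor
  · rintro ⟨h1, h2⟩
    exact ⟨h1, h2⟩
  · rintro ⟨h1, h2⟩
    exact ⟨h1, h2⟩

private lemma exists_map_sub {W : Finset γ} (A : Finset {b // b ∈ W}) (P : γ → Prop) :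
    (∃ a ∈ A.map (Function.Embedding.subtype fun b => b ∈ W), P a) ↔ ∃ a ∈ A, P a.1 := by
  constructor
  · rintro ⟨x, hx, h⟩
    obtain ⟨y, hy, rfl⟩ := mem_map.mp hx
    exact ⟨y, hy, h⟩
  · rintro ⟨y, hy, h⟩
    exact ⟨y.1, mem_map.mpr ⟨y, hy, rfl⟩, h⟩

private lemma map_sub_subset {W : Finset γ} (A : Finset {b // b ∈ W}) :
    A.map (Function.Embedding.subtype fun b => b ∈ W) ⊆ W := by
  intro x hx
  obtain ⟨y, _, rfl⟩ := mem_map.mp hx
  exact y.2

/-- Extend a function on a finite set by the identity. -/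
private noncomputable def ext0 {V W : Finset γ} (F : {a // a ∈ V} → {b // b ∈ W}) : γ → γ :=
  open Classical in fun a => if h : a ∈ V then (F ⟨a, h⟩).1 else a

private lemma ext0_apply {V W : Finset γ} (F : {a // a ∈ V} → {b // b ∈ W}) {a : γ}
    (h : a ∈ V) : ext0 F a = (F ⟨a, h⟩).1 := by
  unfold ext0
  exact dif_pos h

private lemma ext0_injOn {V W : Finset γ} {F : {a // a ∈ V} → {b // b ∈ W}}
    (hF : Function.Injective F) : Set.InjOn (ext0 F) V := by
  intro a ha a' ha' h
  rw [ext0_apply F (mem_coe.mp ha), ext0_apply F (mem_coe.mp ha')] at h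
  exact congrArg Subtype.val (hF (Subtype.ext h))

variable [DecidableEq γ]

/-- Punctured Griggs step. -/
theorem punctured (V W : Finset γ) (r : γ → γ → Prop) (X X' X1 X1' : Finset γ)
    (hX : X ⊆ V) (hX' : X' ⊆ V) (hc : X.card = X'.card)
    (p : γ → γ) (hp : Set.BijOn p W W) (hpX : ∀ b ∈ W, (b ∈ X1 ↔ p b ∈ X1'))
    (KP : ∀ A ⊆ V \ X, ∀ D ⊆ W \ X1', A.card ≤ (loS V r D \ X').card ∨
      A.card + D.card ≤ (upS W r A \ X1).card + (loS V r D \ X').card) :
    ∃ F G : γ → γ, Set.InjOn F (V \ X : Finset γ) ∧ Set.InjOn G (V \ X' : Finset γ) ∧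
      (∀ a ∈ V \ X, F a ∈ W \ X1 ∧ r a (F a)) ∧ (∀ a ∈ V \ X', G a ∈ W \ X1' ∧ r a (G a)) ∧
      p '' (F '' (V \ X : Finset γ)) = G '' (V \ X' : Finset γ) := by
  have hcV : (V \ X).card = (V \ X').card := by
    rw [card_sdiff_of_subset hX, card_sdiff_of_subset hX', hc]
  have hq0 : ∀ b : {b // b ∈ W \ X1}, p b.1 ∈ W \ X1' := by
    intro b
    have hb := mem_sdiff.mp b.2
    exact mem_sdiff.mpr ⟨hp.mapsTo hb.1, fun h => hb.2 ((hpX b.1 hb.1).mpr h)⟩
  obtain ⟨q, hqdef⟩ : ∃ q : {b // b ∈ W \ X1} → {d // d ∈ W \ X1'}, ∀ b, (q b).1 = p b.1 :=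
    ⟨fun b => ⟨p b.1, hq0 b⟩, fun _ => rfl⟩
  have hqi : Function.Injective q := by
    intro b b' h
    have h1 : p b.1 = p b'.1 := by rw [← hqdef, ← hqdef, h]
    exact Subtype.ext (hp.injOn (mem_sdiff.mp b.2).1 (mem_sdiff.mp b'.2).1 h1)
  have hqs : Function.Surjective q := by
    intro d
    obtain ⟨b, hb, hbd⟩ := hp.surjOn (mem_coe.mpr (mem_sdiff.mp d.2).1)
    have hb1 : b ∉ X1 := fun h => (mem_sdiff.mp d.2).2 (hbd ▸ (hpX b hb).mp h)
    exact ⟨⟨b, mem_sdiff.mpr ⟨hb, hb1⟩⟩, Subtype.ext ((hqdef _).trans hbd)⟩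
  have hcW : Fintype.card {b // b ∈ W \ X1} = Fintype.card {d // d ∈ W \ X1'} :=
    Fintype.card_of_bijective ⟨hqi, hqs⟩
  have key : ∀ (A : Finset {a // a ∈ V \ X}) (D : Finset {d // d ∈ W \ X1'}),
      A.card + D.card ≤ (cf univ fun b : {b // b ∈ W \ X1} =>
        (∃ a ∈ A, r a.1 b.1) ∨ (b ∈ (univ : Finset {b // b ∈ W \ X1}) ∧ q b ∈ D)).card +
        (cf univ fun a : {a // a ∈ V \ X'} => ∃ d ∈ D, r a.1 d.1).card := by
    intro A D
    have hAc : (A.map (Function.Embedding.subtype fun b => b ∈ V \ X)).card = A.card := card_map _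
    have hDc : (D.map (Function.Embedding.subtype fun b => b ∈ W \ X1')).card = D.card :=
      card_map _
    have h2 : (cf univ fun a : {a // a ∈ V \ X'} => ∃ d ∈ D, r a.1 d.1).card =
        (loS V r (D.map (Function.Embedding.subtype fun b => b ∈ W \ X1')) \ X').card := by
      have h3 : (cf univ fun a : {a // a ∈ V \ X'} => ∃ d ∈ D, r a.1 d.1) =
          (cf univ fun a : {a // a ∈ V \ X'} =>
            ∃ d ∈ D.map (Function.Embedding.subtype fun b => b ∈ W \ X1'), r a.1 d) := by
        ext a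
        rw [mem_cf, mem_cf, exists_map_sub D (fun d => r a.1 d)]
      rw [h3, card_sub (V \ X') (fun a => ∃ d ∈
        D.map (Function.Embedding.subtype fun b => b ∈ W \ X1'), r a d)]
      congr 1
      ext a
      rw [mem_cf, mem_sdiff, mem_sdiff, mem_loS]
      tauto
    have h1a : (upS W r (A.map (Function.Embedding.subtype fun b => b ∈ V \ X)) \ X1).card ≤
        (cf univ fun b : {b // b ∈ W \ X1} =>
        (∃ a ∈ A, r a.1 b.1) ∨ (b ∈ (univ : Finset {b // b ∈ W \ X1}) ∧ q b ∈ D)).card := by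
      have h3 : (upS W r (A.map (Function.Embedding.subtype fun b => b ∈ V \ X)) \ X1).card =
          (cf univ fun b : {b // b ∈ W \ X1} =>
            ∃ a ∈ A.map (Function.Embedding.subtype fun b => b ∈ V \ X), r a b.1).card := by
        rw [card_sub (W \ X1) (fun b => ∃ a ∈
          A.map (Function.Embedding.subtype fun b => b ∈ V \ X), r a b)]
        congr 1
        ext a
        rw [mem_cf, mem_sdiff, mem_sdiff, mem_upS]
        tauto
      rw [h3]
      apply card_le_card
      intro b hb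
      rw [mem_cf, exists_map_sub A (fun a => r a b.1)] at hb
      exact mem_cf.mpr ⟨hb.1, Or.inl hb.2⟩
    have h1b : D.card ≤ (cf univ fun b : {b // b ∈ W \ X1} =>
        (∃ a ∈ A, r a.1 b.1) ∨ (b ∈ (univ : Finset {b // b ∈ W \ X1}) ∧ q b ∈ D)).card := by
      classical
      have h3 : D ⊆ (cf univ fun b : {b // b ∈ W \ X1} =>
        (∃ a ∈ A, r a.1 b.1) ∨ (b ∈ (univ : Finset {b // b ∈ W \ X1}) ∧ q b ∈ D)).image q := by
        intro d hd
        obtain ⟨b, rfl⟩ := hqs d
        exact mem_image_of_mem q (mem_cf.mpr ⟨mem_univ _, Or.inr ⟨mem_univ _, hd⟩⟩)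
      exact (card_le_card h3).trans card_image_le
    rw [h2]
    rcases KP _ (map_sub_subset A) _ (map_sub_subset D) with h | h
    · omega
    · omega
  obtain ⟨F, G, hF, hG, hrF, hrG, hlink, -⟩ := joker
    (fun (a : {a // a ∈ V \ X}) (b : {b // b ∈ W \ X1}) => r a.1 b.1)
    (fun (a : {a // a ∈ V \ X'}) (d : {d // d ∈ W \ X1'}) => r a.1 d.1)
    (by rw [Fintype.card_coe, Fintype.card_coe, hcV]) hcW univ q hqi.injOn 0
    (by
      intro A D
      refine (key A D).trans (Nat.add_le_add_right (card_le_card ?_) _)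
      intro b hb
      rw [mem_cf] at hb ⊢
      exact ⟨hb.1, hb.2.imp_right fun h => Or.inr h.2⟩)
    (fun A D _ => key A D)
    (fun A D => key A D)
  refine ⟨ext0 F, ext0 G, ext0_injOn hF, ext0_injOn hG, ?_, ?_, ?_⟩
  · intro a ha
    rw [ext0_apply F ha]
    exact ⟨(F ⟨a, ha⟩).2, hrF ⟨a, ha⟩⟩
  · intro a ha
    rw [ext0_apply G ha]
    exact ⟨(G ⟨a, ha⟩).2, hrG ⟨a, ha⟩⟩
  · ext d
    constructor
    · rintro ⟨_, ⟨a, ha, rfl⟩, rfl⟩
      rw [ext0_apply F (mem_coe.mp ha)]
      obtain ⟨a', ha'⟩ := (hlink (F ⟨a, mem_coe.mp ha⟩) (mem_univ _)).mp ⟨_, rfl⟩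
      refine ⟨a'.1, mem_coe.mpr a'.2, ?_⟩
      rw [ext0_apply G a'.2]
      exact (congrArg Subtype.val ha').trans (hqdef _)
    · rintro ⟨a, ha, rfl⟩
      rw [ext0_apply G (mem_coe.mp ha)]
      obtain ⟨b, hb⟩ := hqs (G ⟨a, mem_coe.mp ha⟩)
      obtain ⟨a', ha'⟩ := (hlink b (mem_univ _)).mpr ⟨⟨a, mem_coe.mp ha⟩, hb.symm⟩
      refine ⟨b.1, ⟨a'.1, mem_coe.mpr a'.2, ?_⟩, (hqdef b).symm.trans (congrArg Subtype.val hb)⟩
      rw [ext0_apply F a'.2]
      exact congrArg Subtype.val ha'

omit [DecidableEq γ] in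
/-- Griggs step with `Y` prescribed links `x ↦ q x`, at least `r0` of which are killed. -/
theorem step (V W : Finset γ) (r : γ → γ → Prop) (Y : Finset γ) (hY : Y ⊆ W)
    (q : γ → γ) (hq : Set.InjOn q Y) (hqW : ∀ x ∈ Y, q x ∈ W) (r0 : ℕ)
    (K : ∀ A ⊆ V, ∀ D ⊆ W, A.card ≤ (loS V r D).card ∨
      A.card + D.card ≤ (upS W r A).card + (loS V r D).card)
    (H : ∀ A ⊆ V, ∀ A'' ⊆ V, r0 + A.card + A''.card ≤
      max Y.card ((upS W r A).card + (upS W r A'').card)) :
    ∃ F G : γ → γ, Set.InjOn F V ∧ Set.InjOn G V ∧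
      (∀ a ∈ V, F a ∈ W ∧ r a (F a)) ∧ (∀ a ∈ V, G a ∈ W ∧ r a (G a)) ∧
      (∀ x ∈ Y, (x ∈ F '' V ↔ q x ∈ G '' V)) ∧
      r0 ≤ (cf Y fun x => x ∉ F '' (V : Set γ)).card := by
  classical
  -- the prescribed links on the subtype
  obtain ⟨q', hq'⟩ : ∃ q' : {b // b ∈ W} → {b // b ∈ W}, ∀ b, b.1 ∈ Y → (q' b).1 = q b.1 :=
    ⟨fun b => if h : b.1 ∈ Y then ⟨q b.1, hqW _ h⟩ else b, fun b hb => congrArg Subtype.val (dif_pos hb)⟩
  set Y' : Finset {b // b ∈ W} := univ.filter fun b => b.1 ∈ Y with hY'
  have memY' : ∀ b : {b // b ∈ W}, b ∈ Y' ↔ b.1 ∈ Y := by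
    intro b
    rw [hY', mem_filter]
    exact ⟨fun h => h.2, fun h => ⟨mem_univ _, h⟩⟩
  have hYc : Y'.card = Y.card := by
    rw [← card_map (Function.Embedding.subtype fun b => b ∈ W)]
    congr 1
    ext x
    rw [mem_map]
    constructor
    · rintro ⟨b, hb, rfl⟩
      exact (memY' b).mp hb
    · intro hx
      exact ⟨⟨x, hY hx⟩, (memY' _).mpr hx, rfl⟩
  have hq'i : Set.InjOn q' Y' := by
    intro b hb b' hb' h
    have h1 := (memY' b).mp (mem_coe.mp hb)
    have h2 := (memY' b').mp (mem_coe.mp hb')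
    have h3 : q b.1 = q b'.1 := by rw [← hq' b h1, ← hq' b' h2, h]
    exact Subtype.ext (hq (mem_coe.mpr h1) (mem_coe.mpr h2) h3)
  have hWc : Fintype.card {b // b ∈ W} = W.card := Fintype.card_coe W
  have hVc : Fintype.card {a // a ∈ V} = V.card := Fintype.card_coe V
  have hcY : Y.card ≤ W.card := card_le_card hY
  -- size condition
  have hsz : r0 + V.card ≤ W.card := by
    have h1 := H V (Subset.refl V) ∅ (empty_subset V)
    have h2 : (upS W r V).card ≤ W.card := card_le_card fun b hb => (mem_upS.mp hb).1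
    have h3 : (upS W r (∅ : Finset γ)).card = 0 := by
      rw [card_eq_zero]
      ext b
      rw [mem_upS]
      simp
    rw [h3, card_empty] at h1
    rcases le_max_iff.mp h1 with h | h <;> omega
  -- translation of the cardinals
  have hlo : ∀ D : Finset {b // b ∈ W},
      (cf univ fun a : {a // a ∈ V} => ∃ d ∈ D, r a.1 d.1).card =
        (loS V r (D.map (Function.Embedding.subtype fun b => b ∈ W))).card := by
    intro D
    have h3 : (cf univ fun a : {a // a ∈ V} => ∃ d ∈ D, r a.1 d.1) =
        (cf univ fun a : {a // a ∈ V} =>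
          ∃ d ∈ D.map (Function.Embedding.subtype fun b => b ∈ W), r a.1 d) := by
      ext a
      rw [mem_cf, mem_cf, exists_map_sub D (fun d => r a.1 d)]
    rw [h3, card_sub V (fun a => ∃ d ∈ D.map (Function.Embedding.subtype fun b => b ∈ W), r a d)]
    rfl
  have hup : ∀ A : Finset {a // a ∈ V},
      (upS W r (A.map (Function.Embedding.subtype fun b => b ∈ V))).card =
        (cf univ fun b : {b // b ∈ W} => ∃ a ∈ A, r a.1 b.1).card := by
    intro A
    have h3 : (cf univ fun b : {b // b ∈ W} => ∃ a ∈ A, r a.1 b.1) =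
        (cf univ fun b : {b // b ∈ W} =>
          ∃ a ∈ A.map (Function.Embedding.subtype fun b => b ∈ V), r a b.1) := by
      ext b
      rw [mem_cf, mem_cf, exists_map_sub A (fun a => r a b.1)]
    rw [h3, card_sub W (fun b => ∃ a ∈ A.map (Function.Embedding.subtype fun b => b ∈ V), r a b)]
    rfl
  have hup1 : ∀ (A : Finset {a // a ∈ V}) (P : {b // b ∈ W} → Prop),
      (upS W r (A.map (Function.Embedding.subtype fun b => b ∈ V))).card ≤
        (cf univ fun b : {b // b ∈ W} => (∃ a ∈ A, r a.1 b.1) ∨ P b).card := by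
    intro A P
    rw [hup A]
    apply card_le_card
    intro b hb
    rw [mem_cf] at hb ⊢
    exact ⟨hb.1, Or.inl hb.2⟩
  -- the part of `D` reached by prescribed links
  have hD1 : ∀ D : Finset {b // b ∈ W}, (∀ d ∈ D, ∃ b ∈ Y', q' b = d) →
      D.card ≤ (Y'.filter fun b => q' b ∈ D).card := by
    intro D hD
    have h1 : D ⊆ (Y'.filter fun b => q' b ∈ D).image q' := by
      intro d hd
      obtain ⟨b, hb, rfl⟩ := hD d hd
      exact mem_image_of_mem q' (mem_filter.mpr ⟨hb, hd⟩)
    exact (card_le_card h1).trans card_image_le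
  have hD2 : ∀ D : Finset {b // b ∈ W}, D.card + Y.card ≤
      (Y'.filter fun b => q' b ∈ D).card + W.card := by
    intro D
    have h1 : (Y'.image q').card = Y.card := by rw [card_image_of_injOn hq'i, hYc]
    have h2 : D.card = (D ∩ Y'.image q').card + (D \ Y'.image q').card := by
      rw [card_inter_add_card_sdiff]
    have h3 : (D \ Y'.image q').card ≤ W.card - Y.card := by
      have h4 : (D \ Y'.image q').card ≤ (univ \ Y'.image q').card :=
        card_le_card (sdiff_subset_sdiff (subset_univ D) (Subset.refl _))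
      rw [card_sdiff_of_subset (subset_univ _), card_univ, hWc, h1] at h4
      exact h4
    have h5 : (D ∩ Y'.image q').card ≤ (Y'.filter fun b => q' b ∈ D).card := by
      have h6 : D ∩ Y'.image q' ⊆ (Y'.filter fun b => q' b ∈ D).image q' := by
        intro d hd
        obtain ⟨hd1, hd2⟩ := mem_inter.mp hd
        obtain ⟨b, hb, rfl⟩ := mem_image.mp hd2
        exact mem_image_of_mem q' (mem_filter.mpr ⟨hb, hd1⟩)
      exact (card_le_card h6).trans card_image_le
    omega
  obtain ⟨F, G, hF, hG, hrF, hrG, hlink, hcount⟩ := joker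
    (fun (a : {a // a ∈ V}) (b : {b // b ∈ W}) => r a.1 b.1)
    (fun (a : {a // a ∈ V}) (d : {b // b ∈ W}) => r a.1 d.1)
    rfl rfl Y' q' hq'i (W.card - V.card - r0)
    (by
      intro A D
      rw [hlo D]
      have h1 := hup1 A (fun b => b ∉ Y' ∨ q' b ∈ D)
      have h2 : D.card ≤
          (cf univ fun b : {b // b ∈ W} => (∃ a ∈ A, r a.1 b.1) ∨ b ∉ Y' ∨ q' b ∈ D).card := by
        have h3 : (Y'.filter fun b => q' b ∈ D) ∪ (univ \ Y') ⊆
            (cf univ fun b : {b // b ∈ W} => (∃ a ∈ A, r a.1 b.1) ∨ b ∉ Y' ∨ q' b ∈ D) := by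
          intro b hb
          rw [mem_cf]
          rcases mem_union.mp hb with hb | hb
          · exact ⟨mem_univ _, Or.inr (Or.inr (mem_filter.mp hb).2)⟩
          · exact ⟨mem_univ _, Or.inr (Or.inl (mem_sdiff.mp hb).2)⟩
        have h4 : Disjoint (Y'.filter fun b => q' b ∈ D) (univ \ Y') := by
          rw [disjoint_left]
          intro b hb hb'
          exact (mem_sdiff.mp hb').2 (mem_filter.mp hb).1
        have h5 := card_le_card h3
        rw [card_union_of_disjoint h4, card_sdiff_of_subset (subset_univ _), card_univ, hWc,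
          hYc] at h5
        have h6 := hD2 D
        omega
      have hAc : (A.map (Function.Embedding.subtype fun b => b ∈ V)).card = A.card := card_map _
      have hDc : (D.map (Function.Embedding.subtype fun b => b ∈ W)).card = D.card := card_map _
      rcases K _ (map_sub_subset A) _ (map_sub_subset D) with h | h <;> omega)
    (by
      intro A D hD
      rw [hlo D]
      have h1 := hup1 A (fun b => b ∈ Y' ∧ q' b ∈ D)
      have h2 : D.card ≤ (cf univ fun b : {b // b ∈ W} =>
          (∃ a ∈ A, r a.1 b.1) ∨ (b ∈ Y' ∧ q' b ∈ D)).card := by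
        refine (hD1 D hD).trans (card_le_card ?_)
        intro b hb
        rw [mem_cf]
        exact ⟨mem_univ _, Or.inr (mem_filter.mp hb)⟩
      have hAc : (A.map (Function.Embedding.subtype fun b => b ∈ V)).card = A.card := card_map _
      have hDc : (D.map (Function.Embedding.subtype fun b => b ∈ W)).card = D.card := card_map _
      rcases K _ (map_sub_subset A) _ (map_sub_subset D) with h | h <;> omega)
    (by
      intro A D
      rw [hlo D]
      have h1 := hup1 A (fun b => b ∈ Y' ∧ q' b ∈ D)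
      have h2 : (Y'.filter fun b => q' b ∈ D).card ≤ (cf univ fun b : {b // b ∈ W} =>
          (∃ a ∈ A, r a.1 b.1) ∨ (b ∈ Y' ∧ q' b ∈ D)).card := by
        apply card_le_card
        intro b hb
        rw [mem_cf]
        exact ⟨mem_univ _, Or.inr (mem_filter.mp hb)⟩
      have h3 := hD2 D
      have hAc : (A.map (Function.Embedding.subtype fun b => b ∈ V)).card = A.card := card_map _
      have hDc : (D.map (Function.Embedding.subtype fun b => b ∈ W)).card = D.card := card_map _
      set D0 := D.map (Function.Embedding.subtype fun b => b ∈ W) with hD0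
      have hlosub : loS V r D0 ⊆ V := fun a ha => (mem_loS.mp ha).1
      have h4 : (V \ loS V r D0).card + (loS V r D0).card = V.card := by
        rw [card_sdiff_of_subset hlosub]
        have := card_le_card hlosub
        omega
      have h5 : (upS W r (V \ loS V r D0)).card + D0.card ≤ W.card := by
        have hdis : Disjoint (upS W r (V \ loS V r D0)) D0 := by
          rw [disjoint_left]
          intro b hb hbD
          obtain ⟨_, a, ha, hr⟩ := mem_upS.mp hb
          exact (mem_sdiff.mp ha).2 (mem_loS.mpr ⟨(mem_sdiff.mp ha).1, b, hbD, hr⟩)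
        rw [← card_union_of_disjoint hdis]
        apply card_le_card
        intro b hb
        rcases mem_union.mp hb with hb | hb
        · exact (mem_upS.mp hb).1
        · exact map_sub_subset D hb
      rcases le_max_iff.mp (H _ (map_sub_subset A) _
        (sdiff_subset : V \ loS V r D0 ⊆ V)) with h | h <;> omega)
  refine ⟨ext0 F, ext0 G, ext0_injOn hF, ext0_injOn hG, ?_, ?_, ?_, ?_⟩
  · intro a ha
    rw [ext0_apply F ha]
    exact ⟨(F ⟨a, ha⟩).2, hrF ⟨a, ha⟩⟩
  · intro a ha
    rw [ext0_apply G ha]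
    exact ⟨(G ⟨a, ha⟩).2, hrG ⟨a, ha⟩⟩
  · intro x hx
    have hxY : (⟨x, hY hx⟩ : {b // b ∈ W}) ∈ Y' := (memY' _).mpr hx
    have h1 : x ∈ ext0 F '' (V : Set γ) ↔ (⟨x, hY hx⟩ : {b // b ∈ W}) ∈ Set.range F := by
      constructor
      · rintro ⟨a, ha, hax⟩
        rw [ext0_apply F (mem_coe.mp ha)] at hax
        exact ⟨⟨a, mem_coe.mp ha⟩, Subtype.ext hax⟩
      · rintro ⟨a, ha⟩
        refine ⟨a.1, mem_coe.mpr a.2, ?_⟩
        rw [ext0_apply F a.2]
        exact congrArg Subtype.val ha
    have h2 : q x ∈ ext0 G '' (V : Set γ) ↔ q' ⟨x, hY hx⟩ ∈ Set.range G := by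
      constructor
      · rintro ⟨a, ha, hax⟩
        rw [ext0_apply G (mem_coe.mp ha)] at hax
        exact ⟨⟨a, mem_coe.mp ha⟩, Subtype.ext (hax.trans (hq' ⟨x, hY hx⟩ hx).symm)⟩
      · rintro ⟨a, ha⟩
        refine ⟨a.1, mem_coe.mpr a.2, ?_⟩
        rw [ext0_apply G a.2]
        exact (congrArg Subtype.val ha).trans (hq' ⟨x, hY hx⟩ hx)
    rw [h1, h2]
    exact hlink _ hxY
  · -- counting
    have h0 : (univ.filter fun d : {b // b ∈ W} => d ∉ Set.range G).card + V.card = W.card := by
      have h1 : (univ.filter fun d : {b // b ∈ W} => d ∈ Set.range G).card = V.card := by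
        have h2 : (univ.filter fun d : {b // b ∈ W} => d ∈ Set.range G) = univ.image G := by
          ext d
          simp [Set.mem_range]
        rw [h2, card_image_of_injective _ hG, card_univ, hVc]
      have h3 := card_filter_add_card_filter_not (s := (univ : Finset {b // b ∈ W}))
        (fun d => d ∈ Set.range G)
      rw [card_univ, hWc] at h3
      omega
    have h1 : (univ.filter fun d : {b // b ∈ W} => d ∉ Set.range G) ⊆
        (cf univ fun d => (∀ b ∈ Y', q' b ≠ d) ∧ d ∉ Set.range G) ∪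
          (Y'.filter fun b => b ∉ Set.range F).image q' := by
      intro d hd
      have hd1 := (mem_filter.mp hd).2
      by_cases h : ∀ b ∈ Y', q' b ≠ d
      · exact mem_union_left _ (mem_cf.mpr ⟨mem_univ _, h, hd1⟩)
      · push Not at h
        obtain ⟨b, hb, rfl⟩ := h
        exact mem_union_right _ (mem_image_of_mem q'
          (mem_filter.mpr ⟨hb, fun hbF => hd1 ((hlink b hb).mp hbF)⟩))
    have h2 := (card_le_card h1).trans (card_union_le _ _)
    have h3 : ((Y'.filter fun b => b ∉ Set.range F).image q').card ≤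
        (Y'.filter fun b => b ∉ Set.range F).card := card_image_le
    have h4 : (Y'.filter fun b => b ∉ Set.range F).card ≤
        (cf Y fun x => x ∉ ext0 F '' (V : Set γ)).card := by
      rw [← card_map (Function.Embedding.subtype fun b => b ∈ W)]
      apply card_le_card
      intro x hx
      obtain ⟨b, hb, rfl⟩ := mem_map.mp hx
      obtain ⟨hb1, hb2⟩ := mem_filter.mp hb
      refine mem_cf.mpr ⟨(memY' b).mp hb1, ?_⟩
      rintro ⟨a, ha, hax⟩
      rw [ext0_apply F (mem_coe.mp ha)] at hax
      exact hb2 ⟨⟨a, mem_coe.mp ha⟩, Subtype.ext hax⟩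
    omega

end Levels

end Pool.Agent.Helper29.SN
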